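import Pool.Agent.helper47.SC.Spec

/-! Row `sc:QTT`, from `GGF`, `NSQ`, `EPS`. -/

set_option autoImplicit false

open scoped Topology ContDiff
open Set Filter Metric MeasureTheory

namespace Pool.Agent.SC

private theorem QTT_factor {a D u e : ℝ} (ha : 0 ≤ a) (hD : 0 ≤ D) (hu : 0 ≤ u) (he : 0 < e)
    (h : a ≤ D ^ 2 * u ^ 2) : a ^ (e / 2) ≤ D ^ e * u ^ e := by
  calc a ^ (e / 2) ≤ (D ^ 2 * u ^ 2) ^ (e / 2) := Real.rpow_le_rpow ha h (by positivity)
    _ = ((D * u) ^ (2 : ℝ)) ^ (e / 2) := by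
        rw [← mul_pow]
        congr 1
        exact (Real.rpow_natCast (D * u) 2).symm
    _ = (D * u) ^ e := by
        rw [← Real.rpow_mul (mul_nonneg hD hu)]
        congr 1
        ring
    _ = D ^ e * u ^ e := Real.mul_rpow hD hu

private theorem QTT_end {x p : ℝ} (hx : 0 ≤ x) (hp0 : 0 ≤ p) (hp1 : p ≤ 1) (hxp : x * p < 1) :
    Real.sqrt (1 + x ^ 2) * p ≤ Real.sqrt 2 := by
  have h1 : Real.sqrt (1 + x ^ 2) * p = Real.sqrt ((1 + x ^ 2) * p ^ 2) := by
    rw [Real.sqrt_mul (by positivity), Real.sqrt_sq hp0]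
  rw [h1]
  apply Real.sqrt_le_sqrt
  have h2 : 0 ≤ x * p := mul_nonneg hx hp0
  have h3 : (x * p) ^ 2 ≤ 1 := by nlinarith
  have h4 : p ^ 2 ≤ 1 := by nlinarith
  nlinarith

theorem QTT (h1 : GGF_stmt) (h2 : NSQ_stmt) (h3 : EPS_stmt) : QTT_stmt := by
  intro s D T m hd hm t ht x hx
  obtain ⟨-, k, hk⟩ := hx
  obtain ⟨-, -, -, -, -, hn0, -, hn1, -⟩ := h2
  obtain ⟨he0, -⟩ := h3 m hm.1
  refine ⟨k, ?_⟩
  set p : ℝ := ∏ i ∈ Finset.range k, ‖t.1 - (s i).1‖ ^ (eps m i) with hp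
  have hp0 : 0 ≤ p := Finset.prod_nonneg fun i _ => Real.rpow_nonneg (norm_nonneg _) _
  have hsmall : ∀ w ∈ T, ‖w.1‖ ≤ 1 / 8 := by
    intro w hw
    have h5 : ‖w.1‖ ^ 2 ≤ (1 / 8) ^ 2 := by
      calc ‖w.1‖ ^ 2 ≤ nsq w := hn1 w
        _ ≤ 1 / 64 := hd.small w hw
        _ = (1 / 8) ^ 2 := by norm_num
    exact le_of_sq_le_sq h5 (by norm_num)
  have hp1 : p ≤ 1 := by
    refine Finset.prod_le_one (fun i _ => Real.rpow_nonneg (norm_nonneg _) _) fun i _ => ?_
    refine Real.rpow_le_one (norm_nonneg _) ?_ (he0 i).le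
    calc ‖t.1 - (s i).1‖ ≤ ‖t.1‖ + ‖(s i).1‖ := norm_sub_le _ _
      _ ≤ 1 / 8 + 1 / 8 := add_le_add (hsmall t ht) (hsmall (s i) (hd.mem i))
      _ ≤ 1 := by norm_num
  have hxp : ‖x‖ * p < 1 := by
    have h4 := h1 s m hm.1 k (x, t.1)
    rw [h4] at hk
    by_contra hcon
    push Not at hcon
    exact absurd hk (not_lt.2 (one_le_pow₀ hcon))
  have hQ : ∏ i ∈ Finset.range k, (nsq (t - s i)) ^ (eps m i / 2) ≤ Real.exp 1 * p := by
    calc ∏ i ∈ Finset.range k, (nsq (t - s i)) ^ (eps m i / 2)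
        ≤ ∏ i ∈ Finset.range k, (D i ^ (eps m i) * ‖t.1 - (s i).1‖ ^ (eps m i)) := by
          refine Finset.prod_le_prod (fun i _ => Real.rpow_nonneg (hn0 _) _) fun i _ => ?_
          exact QTT_factor (hn0 _) (by linarith [hd.one_le i]) (norm_nonneg _) (he0 i)
            (hd.cone t ht i)
      _ = (∏ i ∈ Finset.range k, D i ^ (eps m i)) * p := Finset.prod_mul_distrib
      _ ≤ Real.exp 1 * p := by
          refine mul_le_mul_of_nonneg_right ?_ hp0
          have e1 : ∏ i ∈ Finset.range k, D i ^ (eps m i) =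
              Real.exp (∑ i ∈ Finset.range k, eps m i * Real.log (D i)) := by
            rw [Real.exp_sum]
            refine Finset.prod_congr rfl fun i _ => ?_
            rw [Real.rpow_def_of_pos (by linarith [hd.one_le i]), mul_comm]
          rw [e1]
          exact Real.exp_le_exp.2 (hm.2 k)
  have hE : Real.exp (64 * nsq t) ≤ Real.exp 1 := by
    apply Real.exp_le_exp.2
    have := hd.small t ht
    linarith
  have hs2 : Real.sqrt 2 < Real.exp 1 := by
    have h6 : Real.sqrt 2 ≤ 2 := by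
      rw [Real.sqrt_le_left (by norm_num)]
      norm_num
    have h7 := Real.exp_one_gt_d9
    linarith
  have hprod0 : 0 ≤ ∏ i ∈ Finset.range k, (nsq (t - s i)) ^ (eps m i / 2) :=
    Finset.prod_nonneg fun i _ => Real.rpow_nonneg (hn0 _) _
  change Real.sqrt (1 + ‖x‖ ^ 2) * (∏ i ∈ Finset.range k, (nsq (t - s i)) ^ (eps m i / 2)) *
    Real.exp (64 * nsq t) < Real.exp 3
  calc Real.sqrt (1 + ‖x‖ ^ 2) * (∏ i ∈ Finset.range k, (nsq (t - s i)) ^ (eps m i / 2)) *
        Real.exp (64 * nsq t)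
      ≤ Real.sqrt (1 + ‖x‖ ^ 2) * (Real.exp 1 * p) * Real.exp 1 := by
        refine mul_le_mul (mul_le_mul_of_nonneg_left hQ (Real.sqrt_nonneg _)) hE
          (Real.exp_pos _).le ?_
        have := Real.exp_pos 1
        positivity
    _ = (Real.sqrt (1 + ‖x‖ ^ 2) * p) * (Real.exp 1 * Real.exp 1) := by ring
    _ ≤ Real.sqrt 2 * (Real.exp 1 * Real.exp 1) := by
        refine mul_le_mul_of_nonneg_right (QTT_end (norm_nonneg _) hp0 hp1 hxp) ?_
        have := Real.exp_pos 1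
        positivity
    _ < Real.exp 1 * (Real.exp 1 * Real.exp 1) := by
        refine mul_lt_mul_of_pos_right hs2 ?_
        have := Real.exp_pos 1
        positivity
    _ = Real.exp 3 := by
        rw [← Real.exp_add, ← Real.exp_add]
        norm_num

end Pool.Agent.SC
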