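import Pool.Agent.helper82.SC.SpecA

set_option autoImplicit false

namespace Pool.Agent.helper82.SC

open Relation

lemma B4_f1 : ∀ j : Fin 3, j + 1 ≠ j := by decide
lemma B4_f2 : ∀ j : Fin 3, j + 2 ≠ j := by decide
lemma B4_f3 : ∀ j : Fin 3, j + 2 ≠ j + 1 := by decide
lemma B4_f4 : ∀ j s : Fin 3, s = j ∨ s = j + 1 ∨ s = j + 2 := by decide
lemma B4_f5 : ∀ j : Fin 3, j + 1 + 1 ≠ j := by decide
lemma B4_f6 : ∀ j : Fin 3, j + 1 + 1 ≠ j + 1 := by decide
lemma B4_f7 : ∀ j : Fin 3, j + 1 + 2 = j := by decide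
lemma B4_f8 : ∀ j : Fin 3, j + 2 + 1 = j := by decide
lemma B4_f9 : ∀ j : Fin 3, j + 2 + 2 ≠ j := by decide
lemma B4_f10 : ∀ j : Fin 3, j + 2 + 2 = j + 1 := by decide
lemma B4_z2 : (1 : ZMod 2) + 1 = 0 := by decide

theorem B4 : B4_stmt := by
  intro D j p part hP
  obtain ⟨h1, h2, h3, h4, h5, h6, h7, h8, h9⟩ := hP
  refine ⟨h1, h2, h3, ?_⟩
  intro x hx hu hv
  have j1 := B4_f1 j
  have j2 := B4_f2 j
  have j3 := B4_f3 j
  by_cases hs : D.sec (S x.1 x.2) = D.sec (S x.1 (x.2 + 1))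
  · have hw : D.wall x = 0 := by unfold Dom.wall; rw [if_pos hs]
    rw [hw, zero_add]
    rcases B4_f4 j (D.sec (S x.1 x.2)) with hj | hj | hj
    · have := h6 x hx hu hv hj (hs ▸ hj)
      unfold beta4
      rw [if_pos hj, if_pos (hs ▸ hj)]
      exact this
    · have hne : x ≠ p := by
        rintro rfl
        rw [hj] at h4; exact j1 h4
      unfold beta4
      rw [← hs, hj, if_neg j1, if_neg j1, if_pos rfl, if_neg hne]
      exact B4_z2
    · have hne : x ≠ p := by
        rintro rfl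
        rw [hj] at h4; exact j2 h4
      unfold beta4
      rw [← hs, hj, if_neg j2, if_neg j2, if_neg j3, if_neg hne, add_zero]
  · have hw : D.wall x = 1 := by unfold Dom.wall; rw [if_neg hs]
    have hne : x ≠ p := by
      rintro rfl
      exact hs (h4.trans h5.symm)
    rw [hw, if_neg hne, add_zero]
    have hthird : S x.1 (x.2 + 2) ∈ D.U := by
      obtain ⟨d, hd⟩ := hx
      rcases B4_f4 x.2 d with rfl | rfl | rfl
      · exact absurd hd hu
      · exact absurd hd hv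
      · exact hd
    obtain ⟨m, hm⟩ := D.only x.1 x.2 hthird hu hv hs
    have hxm : x = D.a m := hm
    subst hxm
    unfold beta4
    rw [D.sec_first, D.sec_second]
    rcases B4_f4 j m with rfl | rfl | rfl
    · rw [if_neg j1, if_pos rfl, if_neg j2, if_neg j3, add_zero]
    · rw [if_neg (B4_f5 j), if_neg (B4_f6 j), if_pos (B4_f7 j), h8, zero_add]
    · rw [if_pos (B4_f8 j), if_neg (B4_f9 j), if_pos (B4_f10 j), h9, zero_add]

end Pool.Agent.helper82.SC
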